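import Pool.Agent.Helper71.SD.Goals

/-! Packet DEG of MP_dcced1_gt. -/

set_option autoImplicit false

namespace Pool.Agent.Helper71.SD.DEG

open Pool.Agent.Helper71.AHtpy SimpleGraph

/-- the part of `W` in the directions `E` -/
def pre (W : Finset (Option E)) : Finset E := Finset.univ.filter fun i => some i ∈ W

theorem mem_pre {W : Finset (Option E)} {i : E} : i ∈ pre W ↔ some i ∈ W := by
  simp [pre]

/-- the cube with directions `Option E` at `z` -/
def tau {Q : Type} (f g : (Fin 60 → ℤ) → Q) (z : Fin 60 → ℤ) (W : Finset (Option E)) : Q :=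
  if none ∈ W then g (z + ind (pre W)) else f (z + ind (pre W))

theorem pre_tog_none (W : Finset (Option E)) : pre (tog none W) = pre W := by
  ext i
  rw [mem_pre, mem_pre, mem_tog]
  simp

theorem none_mem_tog_none (W : Finset (Option E)) : none ∈ tog none W ↔ none ∉ W := by
  rw [mem_tog]; simp

theorem none_mem_tog_some (i : E) (W : Finset (Option E)) : none ∈ tog (some i) W ↔ none ∈ W := by
  rw [mem_tog]; simp

theorem ind_tog_some (i : E) (W : Finset (Option E)) (h : some i ∈ W) (z : Fin 60 → ℤ) :
    z + ind (pre W) = (z + Pi.single i 1) + ind (pre (tog (some i) W)) := by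
  funext j
  simp only [Pi.add_apply, ind, mem_pre, mem_tog]
  by_cases hj : j = i
  · subst hj
    simp [h]
  · simp [hj]

theorem tau_tog_some {Q : Type} (f g : (Fin 60 → ℤ) → Q) (z : Fin 60 → ℤ) (i : E)
    (W : Finset (Option E)) (h : some i ∈ W) :
    tau f g z W = tau f g (z + Pi.single i 1) (tog (some i) W) := by
  unfold tau
  rw [← ind_tog_some i W h z]
  by_cases hn : none ∈ W
  · rw [if_pos hn, if_pos ((none_mem_tog_some i W).2 hn)]
  · rw [if_neg hn, if_neg (fun h' => hn ((none_mem_tog_some i W).1 h'))]

theorem ind_near (i : E) (W : Finset (Option E)) (z : Fin 60 → ℤ) :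
    Near (grid (Fin 60)) (z + ind (pre W)) (z + ind (pre (tog (some i) W))) := by
  refine near_grid_of i ?_ ?_
  · simp only [Pi.add_apply, ind, mem_pre, mem_tog]
    by_cases h : some i ∈ W <;> simp [h]
  · intro j hj
    simp only [Pi.add_apply, ind, mem_pre, mem_tog]
    simp [hj]

theorem tau_map {V : Type} {G : SimpleGraph V} {x₀ : Quotient (suspSetoid V 6)}
    (f g : AMap 60 (Susp G 6) x₀) (h : Step f g) (z : Fin 60 → ℤ) :
    IsGraphMap (cube (Option E)) (Susp G 6) (tau f.toFun g.toFun z) := by
  rintro W W' ⟨a, rfl⟩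
  rcases a with _ | i
  · unfold tau
    rw [pre_tog_none]
    by_cases hn : none ∈ W
    · rw [if_pos hn, if_neg (fun h' => (none_mem_tog_none W).1 h' hn)]
      exact (h _).symm
    · rw [if_neg hn, if_pos ((none_mem_tog_none W).2 hn)]
      exact h _
  · unfold tau
    by_cases hn : none ∈ W
    · rw [if_pos hn, if_pos ((none_mem_tog_some i W).2 hn)]
      exact g.isMap.near (ind_near i W z)
    · rw [if_neg hn, if_neg (fun h' => hn ((none_mem_tog_some i W).1 h'))]
      exact f.isMap.near (ind_near i W z)

theorem bot_tau {Q : Type} (f g : (Fin 60 → ℤ) → Q) (z : Fin 60 → ℤ) :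
    bot (tau f g z) = fun S => f (z + ind S) := by
  funext S
  unfold bot tau
  have h1 : none ∉ S.map Function.Embedding.some := by simp
  have h2 : pre (S.map Function.Embedding.some) = S := by
    ext i
    rw [mem_pre]
    simp
  rw [if_neg h1, h2]

theorem top_tau {Q : Type} (f g : (Fin 60 → ℤ) → Q) (z : Fin 60 → ℤ) :
    top (tau f g z) = fun S => g (z + ind S) := by
  funext S
  unfold top tau
  have h1 : none ∈ insert none (S.map Function.Embedding.some) := by simp
  have h2 : pre (insert none (S.map Function.Embedding.some)) = S := by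
    ext i
    rw [mem_pre]
    simp
  rw [if_pos h1, h2]

theorem aff_tog {ι : Type} [DecidableEq ι] (π : E ↪ ι) (w : Finset ι) (a : ι) (S : Finset E) :
    aff π (tog a w) S = tog a (aff π w S) := by
  unfold aff tog
  rw [symmDiff_assoc, symmDiff_assoc]
  congr 1
  exact symmDiff_comm _ _

theorem mem_aff {ι : Type} [DecidableEq ι] (π : E ↪ ι) (w : Finset ι) (a : ι)
    (ha : ∀ j, π j ≠ a) (S : Finset E) : a ∈ aff π w S ↔ a ∈ w := by
  unfold aff
  rw [Finset.mem_symmDiff]
  have : a ∉ S.map π := by
    rw [Finset.mem_map]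
    rintro ⟨j, _, hj⟩
    exact ha j hj
  simp [this]

theorem essF_shift {V : Type} {G : SimpleGraph V} (A : Amb G)
    (f g : (Fin 60 → ℤ) → Quotient (suspSetoid V 6)) (z : Fin 60 → ℤ) (i : E) :
    EssF A (tau f g z) (some i) true ↔ EssF A (tau f g (z + Pi.single i 1)) (some i) false := by
  constructor
  · rintro ⟨π, w, h1, h2, h3⟩
    have hw : some i ∈ w := by simpa using h2
    refine ⟨π, tog (some i) w, h1, ?_, ?_⟩
    · simp [mem_tog, hw]
    · have : (fun S => tau f g (z + Pi.single i 1) (aff π (tog (some i) w) S)) =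
          fun S => tau f g z (aff π w S) := by
        funext S
        rw [aff_tog, tau_tog_some f g z i _ ((mem_aff π w _ h1 S).2 hw)]
      rw [this]
      exact h3
  · rintro ⟨π, w, h1, h2, h3⟩
    have hw : some i ∉ w := by simpa using h2
    have hw' : some i ∈ tog (some i) w := by simp [mem_tog, hw]
    refine ⟨π, tog (some i) w, h1, ?_, ?_⟩
    · simp [hw']
    · have : (fun S => tau f g z (aff π (tog (some i) w) S)) =
          fun S => tau f g (z + Pi.single i 1) (aff π w S) := by
        funext S
        rw [tau_tog_some f g z i _ ((mem_aff π _ _ h1 S).2 hw'), aff_tog, tog_tog]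
      rw [this]
      exact h3

theorem deg : S_PAR → S_FAC → S_EFIN → S_DEG := by
  classical
  intro hP hF hE V G A x₀ f g hfg
  obtain ⟨Nf, hNf⟩ := f.bounded
  obtain ⟨Ng, hNg⟩ := g.bounded
  set M : ℤ := (Nf : ℤ) + Ng + 1 with hM
  set B : Finset (Fin 60 → ℤ) := Fintype.piFinset (fun _ => Finset.Icc (-M) M) with hB
  set τ := tau f.toFun g.toFun with hτ
  have hBmem : ∀ (z : Fin 60 → ℤ) (p : Option E × Bool), EssF A (τ z) p.1 p.2 → z ∈ B := by
    intro z p hp
    by_contra hz
    rw [hB, Fintype.mem_piFinset] at hz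
    push Not at hz
    obtain ⟨i, hi⟩ := hz
    have hi' : M < |z i| := by
      by_contra hle
      push Not at hle
      exact hi (Finset.mem_Icc.2 (abs_le.1 hle))
    have hconst : ∀ S : Finset E, (Nf : ℤ) + Ng < |(z + ind S) i| := by
      intro S
      have h1 : (z + ind S) i = z i + ind S i := rfl
      have h2 : ind S i = 0 ∨ ind S i = 1 := by
        unfold ind; split_ifs <;> simp
      rw [h1]
      rcases h2 with h2 | h2 <;> rw [h2]
      · rw [add_zero]; omega
      · have : |z i| ≤ |z i + 1| + 1 := by
          have := abs_sub_abs_le_abs_sub (z i) (-1)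
          rw [sub_neg_eq_add, abs_neg, abs_one] at this
          linarith
        omega
    have hτc : ∀ W, τ z W = x₀ := by
      intro W
      rw [hτ]
      unfold tau
      have h0 := hconst (pre W)
      split_ifs
      · exact hNg _ ⟨i, by omega⟩
      · exact hNf _ ⟨i, by omega⟩
    obtain ⟨π, w, -, -, h3⟩ := hp
    apply (hE V G A x₀).1
    refine ⟨1, ∅, ?_⟩
    have : (fun S => τ z (aff π w S)) = fun _ => x₀ := by
      funext S; exact hτc _
    rw [this] at h3
    exact h3
  set T : Option E × Bool → Set (Fin 60 → ℤ) := fun p => {z | EssF A (τ z) p.1 p.2} with hT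
  have hTcard : ∀ p, (T p).ncard = (B.filter fun z => EssF A (τ z) p.1 p.2).card := by
    intro p
    rw [← Set.ncard_coe_finset]
    congr 1
    ext z
    simp only [hT, Set.mem_setOf_eq, Finset.coe_filter]
    exact ⟨fun h => ⟨hBmem z p h, h⟩, fun h => h.2⟩
  have hsum : ∑ p, (T p).ncard =
      ∑ z ∈ B, (Finset.univ.filter fun p : Option E × Bool => EssF A (τ z) p.1 p.2).card := by
    rw [Finset.sum_congr rfl fun p _ => hTcard p]
    simp only [Finset.card_filter]
    exact Finset.sum_comm
  have heven : Even (∑ p, (T p).ncard) := by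
    rw [hsum]
    refine Finset.even_sum _ fun z _ => ?_
    have := hP V G A (τ z) (tau_map f g hfg z)
    convert this
  have hshift : ∀ i : E, (T (some i, true)).ncard = (T (some i, false)).ncard := by
    intro i
    have himg : (fun z : Fin 60 → ℤ => z + Pi.single i 1) '' T (some i, true) =
        T (some i, false) := by
      ext z
      constructor
      · rintro ⟨y, hy, rfl⟩
        exact (essF_shift A f.toFun g.toFun y i).1 hy
      · intro hz
        refine ⟨z - Pi.single i 1, ?_, ?_⟩
        · apply (essF_shift A f.toFun g.toFun (z - Pi.single i 1) i).2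
          rw [sub_add_cancel]
          exact hz
        · simp
    rw [← himg, Set.ncard_image_of_injective _ (add_left_injective _)]
  have hTf : T (none, false) = essSet A f.toFun := by
    ext z
    simp only [hT, Set.mem_setOf_eq, essSet]
    rw [(hF V G A (τ z)).1, hτ, bot_tau]
  have hTg : T (none, true) = essSet A g.toFun := by
    ext z
    simp only [hT, Set.mem_setOf_eq, essSet]
    rw [(hF V G A (τ z)).2.1, hτ, top_tau]
  rw [Fintype.sum_prod_type, Fintype.sum_option] at heven
  simp only [Fintype.sum_bool] at heven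
  rw [hTf, hTg] at heven
  have h2 : Even (∑ i : E, ((T (some i, true)).ncard + (T (some i, false)).ncard)) := by
    refine Finset.even_sum _ fun i _ => ?_
    rw [hshift i]
    exact ⟨_, rfl⟩
  have h3 : Even ((essSet A g.toFun).ncard + (essSet A f.toFun).ncard) :=
    (Nat.even_add.1 heven).2 h2
  exact ⟨fun h => (Nat.even_add.1 h3).2 h, fun h => (Nat.even_add.1 h3).1 h⟩

end Pool.Agent.Helper71.SD.DEG
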