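import Pool.Agent.Helper45.SD.Goals

set_option autoImplicit false

/-!
The inequality `G_II`.
-/

open Finset Pool.Agent.Helper45.SD

namespace Pool.Agent.Helper18.SD

/-- one term of Vandermonde -/
theorem choose_mul_le (a b c d : ℕ) : a.choose c * b.choose d ≤ (a + b).choose (c + d) := by
  rw [Nat.add_choose_eq]
  exact Finset.single_le_sum (f := fun ij : ℕ × ℕ => a.choose ij.1 * b.choose ij.2)
    (fun _ _ => Nat.zero_le _) (a := (c, d)) (by simp)

theorem choose_four_le_half (b d : ℕ) (h4 : 4 ≤ d) (hd : d ≤ b / 2) : b.choose 4 ≤ b.choose d := by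
  induction d, h4 using Nat.le_induction with
  | base => exact le_rfl
  | succ d _ ih =>
    exact (ih (by omega)).trans (Nat.choose_le_succ_of_lt_half_left (by omega))

theorem choose_four_le (b d : ℕ) (h4 : 4 ≤ d) (hd : d + 4 ≤ b) : b.choose 4 ≤ b.choose d := by
  by_cases h : d ≤ b / 2
  · exact choose_four_le_half b d h4 h
  · rw [← Nat.choose_symm (by omega : d ≤ b)]
    exact choose_four_le_half b (b - d) (by omega) (by omega)

theorem four_lower (M : ℕ) (hM : 33 ≤ M) :
    24 * ((M - 1) * M * M) < 5 * (24 * ((2 * M + 2) / 3).choose 4) := by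
  obtain ⟨L, hL⟩ : ∃ L, (2 * M + 2) / 3 = L := ⟨_, rfl⟩
  rw [hL]
  have hL1 : 2 * M ≤ 3 * L := by omega
  have h1 : 24 * L.choose 4 = L * (L - 1) * (L - 2) * (L - 3) := by
    have := Nat.descFactorial_eq_factorial_mul_choose L 4
    have h2 : (4 : ℕ).factorial = 24 := by decide
    rw [h2] at this
    rw [← this]
    simp [Nat.descFactorial]
    ring
  rw [h1]
  obtain ⟨l, rfl⟩ : ∃ l, L = l + 3 := ⟨L - 3, by omega⟩
  obtain ⟨m, rfl⟩ : ∃ m, M = m + 33 := ⟨M - 33, by omega⟩
  have e1 : l + 3 - 1 = l + 2 := by omega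
  have e2 : l + 3 - 2 = l + 1 := by omega
  have e3 : l + 3 - 3 = l := by omega
  have e4 : m + 33 - 1 = m + 32 := by omega
  rw [e1, e2, e3, e4]
  have hl : 2 * m + 57 ≤ 3 * l := by omega
  have h3 : (2 * m + 66) * (2 * m + 63) * (2 * m + 60) * (2 * m + 57) ≤
      81 * ((l + 3) * (l + 2) * (l + 1) * l) := by
    have a1 : 2 * m + 66 ≤ 3 * (l + 3) := by omega
    have a2 : 2 * m + 63 ≤ 3 * (l + 2) := by omega
    have a3 : 2 * m + 60 ≤ 3 * (l + 1) := by omega
    calc (2 * m + 66) * (2 * m + 63) * (2 * m + 60) * (2 * m + 57)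
        ≤ (3 * (l + 3)) * (3 * (l + 2)) * (3 * (l + 1)) * (3 * l) := by gcongr
      _ = 81 * ((l + 3) * (l + 2) * (l + 1) * l) := by ring
  have h4 : 81 * (24 * ((m + 32) * (m + 33) * (m + 33))) <
      5 * ((2 * m + 66) * (2 * m + 63) * (2 * m + 60) * (2 * m + 57)) := by
    ring_nf
    nlinarith [sq_nonneg m, Nat.zero_le (m ^ 3), Nat.zero_le (m ^ 4), Nat.zero_le m]
  omega

theorem core (p M F : ℕ) (hp : p.Prime) (hp3 : 3 ≤ p)
    (hq : ∀ q : ℕ, q.Prime → q ∣ M → p ≤ q) (hF : 5 ≤ F) (hFM : 2 * F + 1 ≤ M) (hM : 27 ≤ M)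
    (hL : (M - 1) * (p * M) < ((2 * M + 2) / 3).choose 4) :
    (M - 1) * (∑ j ∈ M.divisors.filter (fun j => 1 < j ∧ j < M),
      Nat.totient (p * j) * (M / j - 1).choose (F / j) + Nat.totient (p * M)) <
      (M - 1).choose F := by
  set L := (2 * M + 2) / 3 with hLdef
  have hterm : ∀ j ∈ M.divisors.filter (fun j => 1 < j ∧ j < M),
      L.choose 4 * (M / j - 1).choose (F / j) ≤ (M - 1).choose F := by
    intro j hj
    rw [mem_filter, Nat.mem_divisors] at hj
    obtain ⟨⟨hjM, -⟩, hj1, hj2⟩ := hj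
    have hj3 : 3 ≤ j := by
      obtain ⟨q, hq1, hq2⟩ := Nat.exists_prime_and_dvd (by omega : j ≠ 1)
      have := hq q hq1 (hq2.trans hjM)
      have := Nat.le_of_dvd (by omega) hq2
      omega
    have hMj : M / j ≤ M / 3 := Nat.div_le_div_left hj3 (by norm_num)
    have hMj1 : 1 ≤ M / j := Nat.div_pos (by omega) (by omega)
    have hFj : F / j ≤ F / 3 := Nat.div_le_div_left hj3 (by norm_num)
    have h1 := choose_mul_le (M / j - 1) (M - M / j) (F / j) (F - F / j)
    have e1 : M / j - 1 + (M - M / j) = M - 1 := by omega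
    have e2 : F / j + (F - F / j) = F := by omega
    rw [e1, e2] at h1
    have g1 : L ≤ M - M / j := by omega
    have g2 : 4 ≤ F - F / j := by omega
    have g3 : F - F / j + 4 ≤ M - M / j := by
      have : M / 3 * 3 ≤ M := Nat.div_mul_le_self M 3
      have : F - F / j ≤ F := Nat.sub_le _ _
      omega
    have h2 : L.choose 4 ≤ (M - M / j).choose (F - F / j) :=
      (Nat.choose_le_choose 4 g1).trans (choose_four_le (M - M / j) (F - F / j) g2 g3)
    calc L.choose 4 * (M / j - 1).choose (F / j)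
        ≤ (M - M / j).choose (F - F / j) * (M / j - 1).choose (F / j) :=
          Nat.mul_le_mul_right _ h2
      _ = (M / j - 1).choose (F / j) * (M - M / j).choose (F - F / j) := mul_comm _ _
      _ ≤ _ := h1
  have htop : L.choose 4 ≤ (M - 1).choose F :=
    (Nat.choose_le_choose 4 (by omega)).trans (choose_four_le (M - 1) F (by omega) (by omega))
  have hsum : L.choose 4 * (∑ j ∈ M.divisors.filter (fun j => 1 < j ∧ j < M),
      Nat.totient (p * j) * (M / j - 1).choose (F / j) + Nat.totient (p * M)) ≤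
      (M - 1).choose F * (∑ j ∈ M.divisors.filter (fun j => 1 < j ∧ j < M),
        Nat.totient (p * j) + Nat.totient (p * M)) := by
    rw [mul_add, mul_add, mul_sum, mul_sum]
    refine add_le_add (sum_le_sum fun j hj => ?_) (Nat.mul_le_mul_right _ htop)
    calc L.choose 4 * (Nat.totient (p * j) * (M / j - 1).choose (F / j))
        = Nat.totient (p * j) * (L.choose 4 * (M / j - 1).choose (F / j)) := by ring
      _ ≤ Nat.totient (p * j) * (M - 1).choose F := Nat.mul_le_mul_left _ (hterm j hj)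
      _ = _ := mul_comm _ _
  have htot : ∑ j ∈ M.divisors.filter (fun j => 1 < j ∧ j < M), Nat.totient (p * j) +
      Nat.totient (p * M) ≤ p * M := by
    have h1 : ∑ j ∈ insert M (M.divisors.filter (fun j => 1 < j ∧ j < M)),
        Nat.totient (p * j) = ∑ j ∈ M.divisors.filter (fun j => 1 < j ∧ j < M),
        Nat.totient (p * j) + Nat.totient (p * M) := by
      rw [sum_insert (by simp), add_comm]
    rw [← h1]
    have h2 : ∑ j ∈ insert M (M.divisors.filter (fun j => 1 < j ∧ j < M)),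
        Nat.totient (p * j) = ∑ d ∈ (insert M (M.divisors.filter (fun j => 1 < j ∧ j < M))).image
          (fun j => p * j), Nat.totient d := by
      rw [sum_image]
      intro a _ b _ hab
      exact Nat.eq_of_mul_eq_mul_left hp.pos hab
    rw [h2]
    calc _ ≤ ∑ d ∈ (p * M).divisors, Nat.totient d := by
          refine sum_le_sum_of_subset ?_
          intro d hd
          rw [mem_image] at hd
          obtain ⟨j, hj, rfl⟩ := hd
          rw [Nat.mem_divisors]
          refine ⟨Nat.mul_dvd_mul_left _ ?_, ?_⟩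
          · rw [mem_insert, mem_filter, Nat.mem_divisors] at hj
            rcases hj with rfl | hj
            · exact dvd_rfl
            · exact hj.1.1
          · have := hp.pos
            positivity
      _ = p * M := Nat.sum_totient _
  have hLpos : 0 < L.choose 4 := lt_of_le_of_lt (Nat.zero_le _) hL
  refine Nat.lt_of_mul_lt_mul_left (a := L.choose 4) ?_
  calc L.choose 4 * ((M - 1) * (∑ j ∈ M.divisors.filter (fun j => 1 < j ∧ j < M),
      Nat.totient (p * j) * (M / j - 1).choose (F / j) + Nat.totient (p * M)))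
      = (M - 1) * (L.choose 4 * (∑ j ∈ M.divisors.filter (fun j => 1 < j ∧ j < M),
      Nat.totient (p * j) * (M / j - 1).choose (F / j) + Nat.totient (p * M))) := by ring
    _ ≤ (M - 1) * ((M - 1).choose F * (p * M)) := by
        refine Nat.mul_le_mul_left _ (hsum.trans (Nat.mul_le_mul_left _ htot))
    _ = ((M - 1) * (p * M)) * (M - 1).choose F := by ring
    _ < L.choose 4 * (M - 1).choose F :=
        Nat.mul_lt_mul_of_pos_right hL (lt_of_lt_of_le hLpos htop)

theorem small (p M F : ℕ) (hp : p.Prime) (hp3 : 3 ≤ p) (hodd : Odd M)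
    (hpp : p * p ≤ M) (hF : 5 ≤ F) (hFM : 2 * F + 1 ≤ M) (hM : M < 27) :
    (M - 1) * (∑ j ∈ M.divisors.filter (fun j => 1 < j ∧ j < M),
      Nat.totient (p * j) * (M / j - 1).choose (F / j) + Nat.totient (p * M)) <
      (M - 1).choose F := by
  have hp5 : p ≤ 5 := by nlinarith
  have hM1 : 11 ≤ M := by omega
  have hp4 : p ≠ 4 := by rintro rfl; revert hp; decide
  obtain ⟨t, rfl⟩ := hodd
  have ht : t ≤ 12 := by omega
  have ht5 : 5 ≤ t := by omega
  have hFt : F ≤ t := by omega
  have key : ∀ t ∈ Finset.Icc 5 12, ∀ F ∈ Finset.Icc 5 t, ∀ p ∈ ({3, 5} : Finset ℕ),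
      (2 * t + 1 - 1) * (∑ j ∈ (2 * t + 1).divisors.filter (fun j => 1 < j ∧ j < (2 * t + 1)),
      Nat.totient (p * j) * ((2 * t + 1) / j - 1).choose (F / j) + Nat.totient (p * (2 * t + 1))) <
      (2 * t + 1 - 1).choose F ∨ (p = 5 ∧ t < 12) := by
    decide +kernel
  have hp35 : p = 3 ∨ p = 5 := by omega
  rcases key t (Finset.mem_Icc.mpr ⟨ht5, ht⟩) F (Finset.mem_Icc.mpr ⟨hF, hFt⟩) p
    (by rcases hp35 with rfl | rfl <;> simp) with h | ⟨h1, h2⟩
  · exact h
  · subst h1
    omega

theorem ii : G_II := by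
  intro p M F hp hp3 hodd hq hpp hF hFM
  by_cases hM : M < 27
  · exact small p M F hp hp3 hodd hpp hF hFM hM
  push Not at hM
  refine core p M F hp hp3 hq hF hFM hM ?_
  have h5p : 5 * p ≤ M := by
    rcases le_or_gt p 5 with h | h
    · omega
    · nlinarith
  by_cases h33 : 33 ≤ M
  · have h1 := four_lower M h33
    have h2 : 5 * ((M - 1) * (p * M)) ≤ (M - 1) * M * M := by
      calc 5 * ((M - 1) * (p * M)) = (M - 1) * (5 * p) * M := by ring
        _ ≤ (M - 1) * M * M := by gcongr
    omega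
  · have hp5 : p ≤ 5 := by nlinarith
    obtain ⟨t, rfl⟩ := hodd
    have ht : t = 13 ∨ t = 14 ∨ t = 15 := by omega
    rcases ht with rfl | rfl | rfl
    · have h3 : p ≤ 3 := hq 3 (by decide) (by decide)
      have : p = 3 := by omega
      subst this
      decide
    · calc (2 * 14 + 1 - 1) * (p * (2 * 14 + 1)) ≤ (2 * 14 + 1 - 1) * (5 * (2 * 14 + 1)) := by gcongr
        _ < _ := by decide
    · calc (2 * 15 + 1 - 1) * (p * (2 * 15 + 1)) ≤ (2 * 15 + 1 - 1) * (5 * (2 * 15 + 1)) := by gcongr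
        _ < _ := by decide

end Pool.Agent.Helper18.SD
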